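import Pool.Agent.W58.DS.Stm

/-! DS-GRAD: domination of the gradients after the step -/

set_option autoImplicit false

open Polynomial Pool.Agent.W58.DS

namespace Pool.Agent.W174.DS.Grad

/-- polynomials are bounded on the closed disc -/
theorem exists_bound (p : ℂ[X]) : ∃ B : ℝ, ∀ z : ℂ, ‖z‖ ≤ 1 → ‖p.eval z‖ ≤ B := by
  have h1 : IsCompact (Metric.closedBall (0 : ℂ) 1) := isCompact_closedBall 0 1
  have h2 : ContinuousOn (fun z : ℂ => p.eval z) (Metric.closedBall (0 : ℂ) 1) :=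
    p.continuous.continuousOn
  obtain ⟨B, hB⟩ := h1.exists_bound_of_continuousOn h2
  refine ⟨B, fun z hz => hB z ?_⟩
  rw [mem_closedBall_zero_iff]
  exact hz

theorem up (a b e : ℂ) : ‖a + b + e‖ ^ 2 ≤ ‖a‖ ^ 2 + ‖b‖ ^ 2 + ‖e‖ ^ 2 + 2 * ‖a‖ * ‖b‖ +
    2 * ‖a‖ * ‖e‖ + 2 * ‖b‖ * ‖e‖ := by
  have h1 : ‖a + b + e‖ ≤ ‖a‖ + ‖b‖ + ‖e‖ := norm_add₃_le
  have h2 : ‖a + b + e‖ ^ 2 ≤ (‖a‖ + ‖b‖ + ‖e‖) ^ 2 := pow_le_pow_left₀ (norm_nonneg _) h1 2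
  refine h2.trans (le_of_eq ?_)
  ring

theorem low2 (b e : ℂ) : ‖b‖ ^ 2 + ‖e‖ ^ 2 - 2 * ‖b‖ * ‖e‖ ≤ ‖b + e‖ ^ 2 := by
  have h1 : ‖b‖ ≤ ‖b + e‖ + ‖e‖ := by
    have := norm_sub_le (b + e) e
    rwa [add_sub_cancel_right] at this
  have h2 : ‖e‖ ≤ ‖b + e‖ + ‖b‖ := by
    have := norm_sub_le (b + e) b
    rwa [add_sub_cancel_left] at this
  have h3 : |‖b‖ - ‖e‖| ≤ ‖b + e‖ := abs_le.mpr ⟨by linarith, by linarith⟩
  have h4 : (‖b‖ - ‖e‖) ^ 2 ≤ ‖b + e‖ ^ 2 := sq_le_sq' (by linarith) (by linarith)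
  nlinarith

theorem low (a b e : ℂ) : ‖a‖ ^ 2 + ‖b‖ ^ 2 - 2 * ‖a‖ * ‖b‖ - 2 * ‖a‖ * ‖e‖ -
    2 * ‖b‖ * ‖e‖ ≤ ‖a + b + e‖ ^ 2 := by
  have h1 := low2 (a + b) e
  have h2 := low2 a b
  have h3 : ‖a + b‖ ≤ ‖a‖ + ‖b‖ := norm_add_le _ _
  have h4 := mul_le_mul_of_nonneg_right h3 (norm_nonneg e)
  have h5 := sq_nonneg ‖e‖
  nlinarith

/-- the derivative of the modulated polynomial -/
theorem deriv_md (K : ℂ[X]) (M k : ℕ) (P : ℂ[X]) (z : ℂ) :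
    (derivative (md K M (k + 1) P)).eval z =
      ((M + 2 * k + 1 : ℕ) : ℂ) * K.eval z * z ^ (2 * k) *
        (derivative P).eval (z ^ (M + 2 * k + 1)) +
      z ^ (2 * k) * (X * derivative K - C (M : ℂ) * K).eval z *
        (divX P).eval (z ^ (M + 2 * k + 1)) := by
  have e1 : 2 * (k + 1) - 1 = 2 * k + 1 := by omega
  have e2 : M + 2 * (k + 1) - 1 = M + 2 * k + 1 := by omega
  have e3 : derivative P = derivative (divX P) * X + divX P := by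
    conv_lhs => rw [← divX_mul_X_add P]
    simp
  unfold md
  rw [e1, e2, e3]
  simp only [derivative_mul, derivative_comp, derivative_X_pow, eval_add, eval_mul, eval_comp,
    eval_pow, eval_X, eval_C, eval_sub, Nat.add_sub_cancel]
  have e4 : z ^ (M + 2 * k) * z = z ^ (M + 2 * k + 1) := (pow_succ _ _).symm
  have e5 : z ^ (2 * k + 1) = z ^ (2 * k) * z := pow_succ _ _
  rw [← e4, e5]
  push_cast
  ring

/-- the real inequality -/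
theorem fin_ineq {ι : Type} [Fintype ι] {aQ aP bQ eQ bP eP τ B N ρ Q2 P2 : ℝ} {bW eW W2 : ι → ℝ}
    (haQ : 0 ≤ aQ) (haQP : aQ ≤ aP) (hτ : 0 ≤ τ) (haP : aP ≤ τ * B) (hB : 1 ≤ B) (hN : 1 ≤ N)
    (hρ : 0 ≤ ρ) (hρ1 : ρ ≤ 1)
    (hbQ : 0 ≤ bQ) (hbP : 0 ≤ bP) (hbW : ∀ i, 0 ≤ bW i) (heQ : 0 ≤ eQ) (heP : 0 ≤ eP)
    (heW : ∀ i, 0 ≤ eW i)
    (hdom : bQ ^ 2 ≤ bP ^ 2 + ∑ i, bW i ^ 2)
    (hbQ1 : bQ ≤ N * B ^ 2 * ρ) (hbP1 : bP ≤ N * B ^ 2 * ρ) (hbW1 : ∀ i, bW i ≤ N * B ^ 2 * ρ)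
    (heQ1 : eQ ≤ B ^ 2 * ρ) (heP1 : eP ≤ B ^ 2 * ρ) (heW1 : ∀ i, eW i ≤ B ^ 2 * ρ)
    (hQ : Q2 ≤ aQ ^ 2 + bQ ^ 2 + eQ ^ 2 + 2 * aQ * bQ + 2 * aQ * eQ + 2 * bQ * eQ)
    (hP : aP ^ 2 + bP ^ 2 - 2 * aP * bP - 2 * aP * eP - 2 * bP * eP ≤ P2)
    (hW : ∀ i, bW i ^ 2 - 2 * bW i * eW i ≤ W2 i) :
    Q2 ≤ P2 + ∑ i, W2 i +
      N * ρ * (8 * τ * B ^ 3 + (5 + 2 * (Fintype.card ι : ℝ)) * B ^ 4) := by
  have haP0 : 0 ≤ aP := haQ.trans haQP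
  have hB0 : 0 ≤ B := by linarith
  have hN0 : 0 ≤ N := by linarith
  have hT : 0 ≤ τ * B := mul_nonneg hτ hB0
  obtain ⟨u, hu⟩ : ∃ u : ℝ, u = N * ρ * (τ * B ^ 3) := ⟨_, rfl⟩
  obtain ⟨v, hv⟩ : ∃ v : ℝ, v = N * ρ * B ^ 4 := ⟨_, rfl⟩
  -- basic products
  have k1 : (τ * B) * (N * B ^ 2 * ρ) = u := by rw [hu]; ring
  have k2 : (τ * B) * (B ^ 2 * ρ) ≤ u := by
    rw [hu]
    have h0 : 0 ≤ ρ * (τ * B ^ 3) := by positivity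
    have h1 := mul_le_mul_of_nonneg_right hN h0
    calc (τ * B) * (B ^ 2 * ρ) = 1 * (ρ * (τ * B ^ 3)) := by ring
      _ ≤ N * (ρ * (τ * B ^ 3)) := h1
      _ = _ := by ring
  have k3 : (N * B ^ 2 * ρ) * (B ^ 2 * ρ) ≤ v := by
    rw [hv]
    have h0 : 0 ≤ N * ρ * B ^ 4 := by positivity
    have h1 := mul_le_mul_of_nonneg_left hρ1 h0
    calc (N * B ^ 2 * ρ) * (B ^ 2 * ρ) = N * ρ * B ^ 4 * ρ := by ring
      _ ≤ N * ρ * B ^ 4 * 1 := h1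
      _ = _ := by ring
  have k4 : (B ^ 2 * ρ) * (B ^ 2 * ρ) ≤ v := by
    have h0 : 0 ≤ (B ^ 2 * ρ) * (B ^ 2 * ρ) := by positivity
    have h1 := mul_le_mul_of_nonneg_right hN h0
    refine le_trans ?_ k3
    calc (B ^ 2 * ρ) * (B ^ 2 * ρ) = 1 * ((B ^ 2 * ρ) * (B ^ 2 * ρ)) := by ring
      _ ≤ N * ((B ^ 2 * ρ) * (B ^ 2 * ρ)) := h1
      _ = _ := by ring
  have haQ1 : aQ ≤ τ * B := haQP.trans haP
  have m1 : aQ ^ 2 ≤ aP ^ 2 := pow_le_pow_left₀ haQ haQP 2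
  have m2 : eQ ^ 2 ≤ v := by
    have := mul_le_mul heQ1 heQ1 heQ (heQ.trans heQ1)
    nlinarith
  have m3 : aQ * bQ ≤ u := (mul_le_mul haQ1 hbQ1 hbQ hT).trans (le_of_eq k1)
  have m4 : aQ * eQ ≤ u := (mul_le_mul haQ1 heQ1 heQ hT).trans k2
  have m5 : bQ * eQ ≤ v := (mul_le_mul hbQ1 heQ1 heQ (hbQ.trans hbQ1)).trans k3
  have m6 : aP * bP ≤ u := (mul_le_mul haP hbP1 hbP hT).trans (le_of_eq k1)
  have m7 : aP * eP ≤ u := (mul_le_mul haP heP1 heP hT).trans k2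
  have m8 : bP * eP ≤ v := (mul_le_mul hbP1 heP1 heP (hbP.trans hbP1)).trans k3
  have m9 : ∑ i, bW i ^ 2 ≤ ∑ i, W2 i + 2 * (Fintype.card ι : ℝ) * v := by
    have h1 : ∀ i ∈ Finset.univ, bW i ^ 2 ≤ W2 i + 2 * v := by
      intro i _
      have h2 : bW i * eW i ≤ v :=
        (mul_le_mul (hbW1 i) (heW1 i) (heW i) ((hbW i).trans (hbW1 i))).trans k3
      have := hW i
      linarith
    have h3 := Finset.sum_le_sum h1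
    rw [Finset.sum_add_distrib, Finset.sum_const, Finset.card_univ, nsmul_eq_mul] at h3
    linarith
  have fin : N * ρ * (8 * τ * B ^ 3 + (5 + 2 * (Fintype.card ι : ℝ)) * B ^ 4) =
      8 * u + 5 * v + 2 * (Fintype.card ι : ℝ) * v := by
    rw [hu, hv]; ring
  rw [fin]
  linarith

/-- all bounds -/
structure Bd {ι : Type} (P Q : ℂ[X]) (W : ι → ℂ[X]) (A K : ℂ[X]) (M : ℕ) (B : ℝ) : Prop where
  one : 1 ≤ B
  bA : ∀ z : ℂ, ‖z‖ ≤ 1 → ‖(derivative A).eval z‖ ≤ B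
  bK : ∀ z : ℂ, ‖z‖ ≤ 1 → ‖K.eval z‖ ≤ B
  bL : ∀ z : ℂ, ‖z‖ ≤ 1 → ‖(X * derivative K - C (M : ℂ) * K).eval z‖ ≤ B
  bP1 : ∀ z : ℂ, ‖z‖ ≤ 1 → ‖(divX P).eval z‖ ≤ B
  bP2 : ∀ z : ℂ, ‖z‖ ≤ 1 → ‖(derivative P).eval z‖ ≤ B
  bQ1 : ∀ z : ℂ, ‖z‖ ≤ 1 → ‖(divX Q).eval z‖ ≤ B
  bQ2 : ∀ z : ℂ, ‖z‖ ≤ 1 → ‖(derivative Q).eval z‖ ≤ B
  bW1 : ∀ i, ∀ z : ℂ, ‖z‖ ≤ 1 → ‖(divX (W i)).eval z‖ ≤ B
  bW2 : ∀ i, ∀ z : ℂ, ‖z‖ ≤ 1 → ‖(derivative (W i)).eval z‖ ≤ B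

theorem exists_bd {ι : Type} [Fintype ι] (P Q : ℂ[X]) (W : ι → ℂ[X]) (A K : ℂ[X]) (M : ℕ) :
    ∃ B : ℝ, Bd P Q W A K M B := by
  choose β hβ using exists_bound
  have hβ0 : ∀ p : ℂ[X], 0 ≤ β p := fun p => (norm_nonneg _).trans (hβ p 0 (by simp))
  obtain ⟨B, hB⟩ : ∃ B : ℝ, B = 1 + β (derivative A) + β K +
      β (X * derivative K - C (M : ℂ) * K) + (β (divX P) + β (derivative P)) +
      (β (divX Q) + β (derivative Q)) + ∑ i, (β (divX (W i)) + β (derivative (W i))) := ⟨_, rfl⟩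
  have hsum : 0 ≤ ∑ i, (β (divX (W i)) + β (derivative (W i))) :=
    Finset.sum_nonneg fun i _ => add_nonneg (hβ0 _) (hβ0 _)
  have p1 := hβ0 (derivative A)
  have p2 := hβ0 K
  have p3 := hβ0 (X * derivative K - C (M : ℂ) * K)
  have p4 := hβ0 (divX P)
  have p5 := hβ0 (derivative P)
  have p6 := hβ0 (divX Q)
  have p7 := hβ0 (derivative Q)
  have hB1 : 1 ≤ B := by rw [hB]; linarith
  have hB0 : 0 ≤ B := by linarith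
  have bA : ∀ z : ℂ, ‖z‖ ≤ 1 → ‖(derivative A).eval z‖ ≤ B := fun z hz =>
    (hβ _ z hz).trans (by rw [hB]; linarith)
  have bK : ∀ z : ℂ, ‖z‖ ≤ 1 → ‖K.eval z‖ ≤ B := fun z hz =>
    (hβ _ z hz).trans (by rw [hB]; linarith)
  have bL : ∀ z : ℂ, ‖z‖ ≤ 1 → ‖(X * derivative K - C (M : ℂ) * K).eval z‖ ≤ B := fun z hz =>
    (hβ _ z hz).trans (by rw [hB]; linarith)
  have bP1 : ∀ z : ℂ, ‖z‖ ≤ 1 → ‖(divX P).eval z‖ ≤ B := fun z hz =>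
    (hβ _ z hz).trans (by rw [hB]; linarith)
  have bP2 : ∀ z : ℂ, ‖z‖ ≤ 1 → ‖(derivative P).eval z‖ ≤ B := fun z hz =>
    (hβ _ z hz).trans (by rw [hB]; linarith)
  have bQ1 : ∀ z : ℂ, ‖z‖ ≤ 1 → ‖(divX Q).eval z‖ ≤ B := fun z hz =>
    (hβ _ z hz).trans (by rw [hB]; linarith)
  have bQ2 : ∀ z : ℂ, ‖z‖ ≤ 1 → ‖(derivative Q).eval z‖ ≤ B := fun z hz =>
    (hβ _ z hz).trans (by rw [hB]; linarith)
  have hi : ∀ i, β (divX (W i)) + β (derivative (W i)) ≤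
      ∑ i, (β (divX (W i)) + β (derivative (W i))) := fun i =>
    Finset.single_le_sum (f := fun i => β (divX (W i)) + β (derivative (W i)))
      (fun j _ => add_nonneg (hβ0 _) (hβ0 _)) (Finset.mem_univ i)
  have bW1 : ∀ i, ∀ z : ℂ, ‖z‖ ≤ 1 → ‖(divX (W i)).eval z‖ ≤ B := fun i z hz =>
    (hβ _ z hz).trans (by
      have := hi i
      have := hβ0 (derivative (W i))
      rw [hB]; linarith)
  have bW2 : ∀ i, ∀ z : ℂ, ‖z‖ ≤ 1 → ‖(derivative (W i)).eval z‖ ≤ B := fun i z hz =>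
    (hβ _ z hz).trans (by
      have := hi i
      have := hβ0 (divX (W i))
      rw [hB]; linarith)
  exact ⟨B, hB1, bA, bK, bL, bP1, bP2, bQ1, bQ2, bW1, bW2⟩

/-- the sizes of the two parts of the derivative of the modulated polynomial -/
theorem parts (K : ℂ[X]) (M k : ℕ) (z : ℂ) (hz : ‖z‖ ≤ 1) (B N ρ : ℝ) (hB0 : 0 ≤ B)
    (hN : N = ((M + 2 * k + 1 : ℕ) : ℝ)) (hρ : ρ = ‖z‖ ^ (2 * k))
    (bK : ∀ z : ℂ, ‖z‖ ≤ 1 → ‖K.eval z‖ ≤ B)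
    (bL : ∀ z : ℂ, ‖z‖ ≤ 1 → ‖(X * derivative K - C (M : ℂ) * K).eval z‖ ≤ B) :
    ∃ (b e : ℂ[X] → ℂ) (w : ℂ) (q : ℝ), ‖w‖ ≤ 1 ∧
      (∀ R, (derivative (md K M (k + 1) R)).eval z = b R + e R) ∧
      (∀ R, ‖b R‖ = q * ‖(derivative R).eval w‖) ∧
      (∀ R, ‖(derivative R).eval w‖ ≤ B → ‖b R‖ ≤ N * B ^ 2 * ρ) ∧
      (∀ R, ‖(divX R).eval w‖ ≤ B → ‖e R‖ ≤ B ^ 2 * ρ) := by
  have hρ0 : 0 ≤ ρ := by rw [hρ]; positivity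
  have hN0 : 0 ≤ N := by rw [hN]; positivity
  have hb1 : ∀ R : ℂ[X], ‖((M + 2 * k + 1 : ℕ) : ℂ) * K.eval z * z ^ (2 * k) *
      (derivative R).eval (z ^ (M + 2 * k + 1))‖ =
        (N * ‖K.eval z‖ * ρ) * ‖(derivative R).eval (z ^ (M + 2 * k + 1))‖ := by
    intro R
    rw [norm_mul, norm_mul, norm_mul, norm_pow, hρ, hN, Complex.norm_natCast]
  refine ⟨fun R => ((M + 2 * k + 1 : ℕ) : ℂ) * K.eval z * z ^ (2 * k) *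
        (derivative R).eval (z ^ (M + 2 * k + 1)),
      fun R => z ^ (2 * k) * (X * derivative K - C (M : ℂ) * K).eval z *
        (divX R).eval (z ^ (M + 2 * k + 1)), z ^ (M + 2 * k + 1), N * ‖K.eval z‖ * ρ,
      ?_, fun R => deriv_md K M k R z, hb1, ?_, ?_⟩
  · rw [norm_pow]; exact pow_le_one₀ (norm_nonneg _) hz
  · intro R hR
    have h1 : ‖K.eval z‖ * ‖(derivative R).eval (z ^ (M + 2 * k + 1))‖ ≤ B * B :=
      mul_le_mul (bK z hz) hR (norm_nonneg _) hB0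
    have h2 := mul_le_mul_of_nonneg_left h1 (mul_nonneg hN0 hρ0)
    rw [hb1]
    calc (N * ‖K.eval z‖ * ρ) * ‖(derivative R).eval (z ^ (M + 2 * k + 1))‖ =
        N * ρ * (‖K.eval z‖ * ‖(derivative R).eval (z ^ (M + 2 * k + 1))‖) := by ring
      _ ≤ N * ρ * (B * B) := h2
      _ = _ := by ring
  · intro R hR
    have h1 : ‖(X * derivative K - C (M : ℂ) * K).eval z‖ *
        ‖(divX R).eval (z ^ (M + 2 * k + 1))‖ ≤ B * B :=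
      mul_le_mul (bL z hz) hR (norm_nonneg _) hB0
    have h2 := mul_le_mul_of_nonneg_left h1 hρ0
    simp only
    rw [norm_mul, norm_mul, norm_pow, ← hρ]
    calc ρ * ‖(X * derivative K - C (M : ℂ) * K).eval z‖ *
          ‖(divX R).eval (z ^ (M + 2 * k + 1))‖ =
        ρ * (‖(X * derivative K - C (M : ℂ) * K).eval z‖ *
          ‖(divX R).eval (z ^ (M + 2 * k + 1))‖) := by ring
      _ ≤ ρ * (B * B) := h2
      _ = _ := by ring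

theorem delta_part {ι : Type} (K : ℂ[X]) (M k : ℕ) (δ : ℝ) (W : ι → ℂ[X]) (z : ℂ) :
    ‖(derivative (nW K M (k + 1) δ W none)).eval z‖ ^ 2 =
      δ ^ 2 * ((k + 1 : ℕ) : ℝ) ^ 2 * ‖z‖ ^ (2 * k) := by
  have h1 : nW K M (k + 1) δ W none = C (δ : ℂ) * X ^ (k + 1) := rfl
  rw [h1, derivative_C_mul, derivative_X_pow, eval_mul, eval_C, eval_mul, eval_C, eval_pow,
    eval_X, norm_mul, norm_mul, norm_pow, Complex.norm_real, Complex.norm_natCast,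
    Nat.add_sub_cancel, Real.norm_eq_abs]
  rw [mul_pow, mul_pow, sq_abs]
  ring

theorem core1 {ι : Type} [Fintype ι] (P Q : ℂ[X]) (W : ι → ℂ[X]) (A K : ℂ[X]) (M : ℕ) (x y : ℝ)
    (hxy : ‖Q.eval 0 - (y : ℂ)‖ ≤ ‖P.eval 0 - (x : ℂ)‖) (hdom : Dom P Q W) {B τ : ℝ}
    (hBd : Bd P Q W A K M B) (hτ : τ = ‖P.eval 0 - (x : ℂ)‖) (k : ℕ) (z : ℂ) (hz : ‖z‖ ≤ 1)
    (N ρ : ℝ) (hN : N = ((M + 2 * k + 1 : ℕ) : ℝ)) (hρ : ρ = ‖z‖ ^ (2 * k)) :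
    ‖(derivative (nP A K M (k + 1) y Q)).eval z‖ ^ 2 ≤
      ‖(derivative (nP A K M (k + 1) x P)).eval z‖ ^ 2 +
        ∑ i, ‖(derivative (md K M (k + 1) (W i))).eval z‖ ^ 2 +
        N * ρ * (8 * τ * B ^ 3 + (5 + 2 * (Fintype.card ι : ℝ)) * B ^ 4) := by
  have hB0 : 0 ≤ B := by linarith [hBd.one]
  have hτ0 : 0 ≤ τ := by rw [hτ]; exact norm_nonneg _
  have hρ0 : 0 ≤ ρ := by rw [hρ]; positivity
  have hρ1 : ρ ≤ 1 := by rw [hρ]; exact pow_le_one₀ (norm_nonneg _) hz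
  have hN1 : 1 ≤ N := by rw [hN]; exact_mod_cast Nat.le_add_left 1 _
  obtain ⟨b, e, w, q, hw1, hmd, hbq, hbb, hee⟩ := parts K M k z hz B N ρ hB0 hN hρ hBd.bK hBd.bL
  have hnP : ∀ (R : ℂ[X]) (r : ℝ), (derivative (nP A K M (k + 1) r R)).eval z =
      (R.eval 0 - (r : ℂ)) * (derivative A).eval z + b R + e R := by
    intro R r
    unfold nP
    rw [derivative_add, derivative_add, eval_add, eval_add, hmd, derivative_C,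
      derivative_C_mul, eval_mul, eval_C, eval_zero]
    ring
  have hQ := up ((Q.eval 0 - (y : ℂ)) * (derivative A).eval z) (b Q) (e Q)
  have hP := low ((P.eval 0 - (x : ℂ)) * (derivative A).eval z) (b P) (e P)
  rw [← hnP] at hQ hP
  have hW : ∀ i, ‖b (W i)‖ ^ 2 - 2 * ‖b (W i)‖ * ‖e (W i)‖ ≤
      ‖(derivative (md K M (k + 1) (W i))).eval z‖ ^ 2 := by
    intro i
    have h1 := low2 (b (W i)) (e (W i))
    rw [← hmd] at h1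
    have h2 := sq_nonneg ‖e (W i)‖
    linarith
  have hd : ‖b Q‖ ^ 2 ≤ ‖b P‖ ^ 2 + ∑ i, ‖b (W i)‖ ^ 2 := by
    have h1 := mul_le_mul_of_nonneg_left (hdom w hw1) (sq_nonneg q)
    simp only [hbq, mul_pow]
    rw [← Finset.mul_sum, ← mul_add]
    exact h1
  have aa : ‖(Q.eval 0 - (y : ℂ)) * (derivative A).eval z‖ ≤
      ‖(P.eval 0 - (x : ℂ)) * (derivative A).eval z‖ := by
    rw [norm_mul, norm_mul]
    exact mul_le_mul_of_nonneg_right hxy (norm_nonneg _)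
  have ab : ‖(P.eval 0 - (x : ℂ)) * (derivative A).eval z‖ ≤ τ * B := by
    rw [norm_mul, ← hτ]
    exact mul_le_mul_of_nonneg_left (hBd.bA z hz) hτ0
  exact fin_ineq (ι := ι)
    (bW := fun i => ‖b (W i)‖) (eW := fun i => ‖e (W i)‖)
    (W2 := fun i => ‖(derivative (md K M (k + 1) (W i))).eval z‖ ^ 2)
    (norm_nonneg _) aa hτ0 ab hBd.one hN1 hρ0 hρ1
    (norm_nonneg _) (norm_nonneg _) (fun i => norm_nonneg _) (norm_nonneg _) (norm_nonneg _)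
    (fun i => norm_nonneg _) hd (hbb Q (hBd.bQ2 w hw1)) (hbb P (hBd.bP2 w hw1))
    (fun i => hbb (W i) (hBd.bW2 i w hw1)) (hee Q (hBd.bQ1 w hw1)) (hee P (hBd.bP1 w hw1))
    (fun i => hee (W i) (hBd.bW1 i w hw1)) hQ hP hW

theorem core {ι : Type} [Fintype ι] (P Q : ℂ[X]) (W : ι → ℂ[X]) (A K : ℂ[X]) (M : ℕ) (x y : ℝ)
    (hxy : ‖Q.eval 0 - (y : ℂ)‖ ≤ ‖P.eval 0 - (x : ℂ)‖) (hdom : Dom P Q W) {B τ : ℝ}
    (hBd : Bd P Q W A K M B) (hτ : τ = ‖P.eval 0 - (x : ℂ)‖) (k : ℕ) (δ : ℝ)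
    (hδ : ((M : ℝ) + 2) * (8 * τ * B ^ 3 + (5 + 2 * (Fintype.card ι : ℝ)) * B ^ 4) *
      ((k + 1 : ℕ) : ℝ) ≤ δ ^ 2 * (((k + 1 : ℕ) : ℝ)) ^ 2) (z : ℂ) (hz : ‖z‖ ≤ 1) :
    ‖(derivative (nP A K M (k + 1) y Q)).eval z‖ ^ 2 ≤
      ‖(derivative (nP A K M (k + 1) x P)).eval z‖ ^ 2 +
        ∑ i, ‖(derivative (nW K M (k + 1) δ W i)).eval z‖ ^ 2 := by
  have hB0 : 0 ≤ B := by linarith [hBd.one]
  have hτ0 : 0 ≤ τ := by rw [hτ]; exact norm_nonneg _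
  obtain ⟨ρ, hρ⟩ : ∃ ρ : ℝ, ρ = ‖z‖ ^ (2 * k) := ⟨_, rfl⟩
  have hρ0 : 0 ≤ ρ := by rw [hρ]; positivity
  obtain ⟨N, hN⟩ : ∃ N : ℝ, N = ((M + 2 * k + 1 : ℕ) : ℝ) := ⟨_, rfl⟩
  have key := core1 P Q W A K M x y hxy hdom hBd hτ k z hz N ρ hN hρ
  refine key.trans ?_
  rw [Fintype.sum_option, delta_part, ← hρ]
  have hWi : ∀ i, (derivative (nW K M (k + 1) δ W (some i))).eval z =
      (derivative (md K M (k + 1) (W i))).eval z := fun i => rfl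
  simp only [hWi]
  have h3 := mul_le_mul_of_nonneg_right hδ hρ0
  have h4 : N ≤ ((M : ℝ) + 2) * ((k + 1 : ℕ) : ℝ) := by
    rw [hN]
    push_cast
    have : 0 ≤ (M : ℝ) * k := by positivity
    nlinarith
  have h5 : 0 ≤ ρ * (8 * τ * B ^ 3 + (5 + 2 * (Fintype.card ι : ℝ)) * B ^ 4) := by positivity
  have h6 := mul_le_mul_of_nonneg_right h4 h5
  have h7 : N * ρ * (8 * τ * B ^ 3 + (5 + 2 * (Fintype.card ι : ℝ)) * B ^ 4) ≤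
      δ ^ 2 * ((k + 1 : ℕ) : ℝ) ^ 2 * ρ := by
    refine le_trans (le_of_eq ?_) (h6.trans (le_trans (le_of_eq ?_) h3))
    · ring
    · ring
  linarith

theorem main : S_GRAD := by
  intro ι _ P Q W A K M x y hxy hdom
  obtain ⟨B, hBd⟩ := exists_bd P Q W A K M
  have hB1 := hBd.one
  have hB0 : 0 ≤ B := by linarith
  obtain ⟨τ, hτ⟩ : ∃ τ : ℝ, τ = ‖P.eval 0 - (x : ℂ)‖ := ⟨_, rfl⟩
  have hτ0 : 0 ≤ τ := by rw [hτ]; exact norm_nonneg _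
  refine ⟨((M : ℝ) + 2) * (8 * τ * B ^ 3 + (5 + 2 * (Fintype.card ι : ℝ)) * B ^ 4),
    by positivity, ?_⟩
  intro n hn δ hδ z hz
  obtain ⟨k, rfl⟩ : ∃ k, n = k + 1 := ⟨n - 1, by omega⟩
  exact core P Q W A K M x y hxy hdom hBd hτ k δ hδ z hz

end Pool.Agent.W174.DS.Grad
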